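import Pool.Agent.Work.MP_a1ab50_an.P.Up
import Pool.Agent.Work.MP_a1ab50_an.P.Low

set_option autoImplicit false

namespace Pool.Agent.Results.MP_a1ab50_an.PowThreshold

open Pool.Agent.Work.MP_a1ab50_an.T Pool.Agent.Work.MP_a1ab50_an.P
open scoped NNReal

/-- The sharp smoothness threshold for `p`-summability in `n` variables. -/
theorem result (n r : ℕ) (β : ℝ≥0) (hβ : β ≤ 1) (p : ℝ) (hp : 0 < p) :
    List.TFAE [n = 1 ∨ (n : ℝ) / p - ((n : ℝ) + 1) / 2 ≤ (r : ℝ) + (β : ℝ),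
      ∀ P Q : MvPolynomial (Fin n) ℝ, IsRelPrime P Q → MvPolynomial.constantCoeff Q ≠ 0 →
        Extends r β P Q → PowSummable p P Q,
      ∀ P Q : MvPolynomial (Fin n) ℝ, IsRelPrime P Q → MvPolynomial.constantCoeff Q ≠ 0 →
        {z : Fin n → ℂ | (∀ i, ‖z i‖ = 1) ∧ MvPolynomial.aeval z P = 0 ∧
          MvPolynomial.aeval z Q = 0}.Finite →
        Extends r β P Q → PowSummable p P Q] := by
  tfae_have 1 → 2 := by
    rintro (rfl | h) P Q
    · exact pow_summable_one hp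
    · exact pow_summable hβ hp h
  tfae_have 2 → 3 := fun h P Q h1 h2 _ => h P Q h1 h2
  tfae_have 3 → 1 := fun h => or_iff_not_imp_left.2 fun h1 => le_of_not_gt fun h0 =>
    have ⟨P, Q, h1, h2, h3, h4, h5⟩ := exists_pow hβ hp h1 h0
    h5 (h P Q h1 h2 h3 h4)
  tfae_finish

end Pool.Agent.Results.MP_a1ab50_an.PowThreshold
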